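import Pool.Agent.H382R3.KD.Fin1

/-!
# MP_23b0f8_an, Q2: the Kesten condition is sufficient

Whenever `D = j γ + l` with integers `j`, `l`, the projected staircase satisfies the diffraction
condition, for every starting point `x₀`. Moreover its diffraction measure is pure point and it is
carried by the points `s` with `s κ ∈ ℤ γ + ℤ`, where `κ = √((1-D)² + D²)`.

The Kesten condition makes the deviation of the projected points from a lattice a function of
bounded variation on the circle, evaluated along the rotation; the Fourier transform of the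
autocorrelation is computed from the Fourier series of the periodised weights, and the measure which
comes out has infinitely many atoms because the autocorrelation has an atom at `0`.
-/

set_option autoImplicit false

open MeasureTheory Filter Topology Set
open scoped FourierTransform SchwartzMap ComplexConjugate Real

namespace Pool.Agent.Results.MP_23b0f8_an.KestenSufficient

open Pool.Agent.H382R3.KD

/-- **The Kesten condition implies the diffraction condition.** For `D ∈ (0,1)` with
`D ∈ ℤ γ + ℤ`, `γ` irrational, and every `x₀`, the autocorrelation `η` of the projected staircase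
exists, its diffraction measure `μ` has countably infinitely many atoms, and `μ` is pure point: it is
carried by the countable set of the points `s` with `s √((1-D)² + D²) ∈ ℤ γ + ℤ`. In particular the
staircase satisfies the diffraction condition. -/
theorem result {D γ x₀ : ℝ} (h0 : 0 < D) (h1 : D < 1) (hγ : Irrational γ) (hK : Kesten D γ)
    {p : ℤ → ℤ × ℤ} (hp : IsStaircase D γ x₀ p) :
    DiffractionCondition (proj D '' range p) ∧
      ∃ η μ : Measure ℝ, IsAutocorrelation (proj D '' range p) η ∧ IsFourierTransformOf η μ ∧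
        {s : ℝ | μ {s} ≠ 0}.Infinite ∧ {s : ℝ | μ {s} ≠ 0}.Countable ∧
        μ {s : ℝ | ¬ ∃ m n : ℤ, s * Real.sqrt ((1 - D) ^ 2 + D ^ 2) = m * γ + n} = 0 := by
  refine ⟨sufficiency h0 h1 hγ hK hp, ?_⟩
  obtain ⟨j, l, hjl⟩ := hK
  have hj : (D : Circ) = j • (γ : Circ) := by
    have h2 : ((l : ℝ) : Circ) = 0 := by
      rw [AddCircle.coe_eq_zero_iff]; exact ⟨l, by simp⟩
    rw [hjl, AddCircle.coe_add, h2, add_zero, ← zsmul_eq_mul]
    simp
  have ha := addOrderOf_irr hγ
  rw [image_eq hp]
  have hft := (kestenData h0 (γ : Circ) j).isFT h0 h1 rfl (kesten_cocycle h0 h1 hj)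
  have hau := isAutocorr h0 h1 ha (x₀ : Circ)
  refine ⟨eta D γ, (kestenData h0 (γ : Circ) j).mu, hau, hft,
    infinite_atoms_sum hft.1 (not_finite_of_atom hau.1 (eta_zero h0 _) hft),
    countable_atoms hft.1, ?_⟩
  have hκ : (kestenData h0 (γ : Circ) j).κ = Real.sqrt ((1 - D) ^ 2 + D ^ 2) := rfl
  have hκ0 : 0 < Real.sqrt ((1 - D) ^ 2 + D ^ 2) := kap_pos h0
  set A : Set ℝ := {s : ℝ | ¬ ∃ m n : ℤ, s * Real.sqrt ((1 - D) ^ 2 + D ^ 2) = m * γ + n} with hA
  have hAc : (Aᶜ).Countable := by
    have : Aᶜ ⊆ range (fun q : ℤ × ℤ => ((q.1 : ℝ) * γ + q.2) / Real.sqrt ((1 - D) ^ 2 + D ^ 2)) := by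
      intro s hs
      simp only [hA, mem_compl_iff, mem_setOf_eq, not_not] at hs
      obtain ⟨m, n, hmn⟩ := hs
      exact ⟨(m, n), by simp only; rw [← hmn]; field_simp⟩
    exact (countable_range _).mono this
  have hAm : MeasurableSet A := by
    have := hAc.measurableSet
    rwa [MeasurableSet.compl_iff] at this
  unfold PPData.mu
  rw [Measure.sum_apply _ hAm]
  simp only [Measure.smul_apply, smul_eq_mul, ENNReal.tsum_eq_zero, mul_eq_zero]
  intro q
  right
  rw [Measure.dirac_apply' _ hAm, indicator_of_notMem]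
  simp only [hA, mem_setOf_eq, not_not]
  refine ⟨q.1, q.2 - ⌊(q.1 : ℝ) * γ⌋, ?_⟩
  have hcc : cc (γ : Circ) q.1 = Int.fract ((q.1 : ℝ) * γ) := by
    unfold cc
    rw [show q.1 • (γ : Circ) = ((((q.1 : ℝ) * γ : ℝ)) : Circ) by
      rw [← zsmul_eq_mul]; rfl, fr_coe]
  unfold sp
  rw [hκ, hcc, div_mul_cancel₀ _ hκ0.ne', Int.fract]
  push_cast
  ring

end Pool.Agent.Results.MP_23b0f8_an.KestenSufficient
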